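import Mathlib

/-!
# EHP bridge: plane energy = energy in the coordinates (l, φ), z = exp (l + i φ)
-/

set_option autoImplicit false

open MeasureTheory Set Complex
open scoped Real NNReal

noncomputable section

namespace Pool.Agent.H7.EH

/-- the open annulus `e^l1 < |z| < e^l2` -/
def ann (l1 l2 : ℝ) : Set ℂ := {z : ℂ | Real.exp l1 < ‖z‖ ∧ ‖z‖ < Real.exp l2}

/-- the point with logarithmic polar coordinates `(l, φ)` -/
def pt (l φ : ℝ) : ℂ := Complex.exp (l + φ * I)

theorem pt_eq (l φ : ℝ) : pt l φ = Real.exp l * (Real.cos φ + Real.sin φ * I) := by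
  unfold pt
  rw [Complex.exp_add, Complex.exp_mul_I]
  push_cast
  ring

theorem norm_pt (l φ : ℝ) : ‖pt l φ‖ = Real.exp l := by
  unfold pt
  rw [Complex.norm_exp]
  simp

theorem isOpen_ann (l1 l2 : ℝ) : IsOpen (ann l1 l2) := by
  have h1 : IsOpen {z : ℂ | Real.exp l1 < ‖z‖} := isOpen_lt continuous_const continuous_norm
  have h2 : IsOpen {z : ℂ | ‖z‖ < Real.exp l2} := isOpen_lt continuous_norm continuous_const
  exact h1.inter h2

theorem pt_mem_ann {l1 l2 l : ℝ} (h1 : l1 < l) (h2 : l < l2) (φ : ℝ) : pt l φ ∈ ann l1 l2 := by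
  refine ⟨?_, ?_⟩
  · rw [norm_pt]; exact Real.exp_lt_exp.2 h1
  · rw [norm_pt]; exact Real.exp_lt_exp.2 h2

theorem continuous_pt : Continuous (fun p : ℝ × ℝ => pt p.1 p.2) := by
  unfold pt
  fun_prop

theorem pt_periodic (l : ℝ) : Function.Periodic (pt l) (2 * π) := by
  intro φ
  unfold pt
  have : ((l : ℂ) + ((φ + 2 * π : ℝ) : ℂ) * I) = (l + φ * I) + 2 * π * I := by
    push_cast; ring
  rw [this, Complex.exp_periodic]

/-- polar coordinates with `r = e^l` on an annulus, for bounded measurable functions -/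
theorem setIntegral_ann (f : ℂ → ℝ) (hfm : Measurable f) (C : ℝ) {l1 l2 : ℝ} (hl : l1 ≤ l2)
    (hC : ∀ z ∈ ann l1 l2, |f z| ≤ C) :
    ∫ z in ann l1 l2, f z
      = ∫ l in l1..l2, ∫ φ in (0 : ℝ)..(2 * π), Real.exp (2 * l) * f (pt l φ) := by
  have hmeas : MeasurableSet (ann l1 l2) := (isOpen_ann l1 l2).measurableSet
  -- polar coordinates
  have h1 : ∫ z in ann l1 l2, f z
      = ∫ p in polarCoord.target, p.1 • (ann l1 l2).indicator f (Complex.polarCoord.symm p) := by
    rw [Complex.integral_comp_polarCoord_symm, integral_indicator hmeas]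
  have hsymm : ∀ p : ℝ × ℝ, Complex.polarCoord.symm p
      = p.1 * (Real.cos p.2 + Real.sin p.2 * I) := fun p => by
    rw [Complex.polarCoord_symm_apply]
  have hnorm : ∀ p : ℝ × ℝ, ‖Complex.polarCoord.symm p‖ = |p.1| :=
    fun p => Complex.norm_polarCoord_symm p
  set S : Set (ℝ × ℝ) := Ioo (Real.exp l1) (Real.exp l2) ×ˢ Ioo (-π) π with hS
  have hSt : S ⊆ polarCoord.target := by
    rintro p ⟨hp1, hp2⟩
    exact ⟨lt_trans (Real.exp_pos _) hp1.1, hp2⟩
  have hSm : MeasurableSet S := measurableSet_Ioo.prod measurableSet_Ioo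
  have h2 : ∫ p in polarCoord.target, p.1 • (ann l1 l2).indicator f (Complex.polarCoord.symm p)
      = ∫ p in S, p.1 • f (Complex.polarCoord.symm p) := by
    rw [setIntegral_eq_of_subset_of_forall_sdiff_eq_zero
      (polarCoord.open_target.measurableSet) hSt]
    · refine setIntegral_congr_fun hSm ?_
      rintro p ⟨hp1, hp2⟩
      have hpos : 0 < p.1 := lt_trans (Real.exp_pos _) hp1.1
      have hm : Complex.polarCoord.symm p ∈ ann l1 l2 := by
        refine ⟨?_, ?_⟩ <;> rw [hnorm, abs_of_pos hpos]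
        · exact hp1.1
        · exact hp1.2
      simp only [indicator_of_mem hm]
    · rintro p ⟨hp1, hp2⟩
      have hpos : 0 < p.1 := hp1.1
      have hm : Complex.polarCoord.symm p ∉ ann l1 l2 := by
        rintro ⟨h3, h4⟩
        rw [hnorm, abs_of_pos hpos] at h3 h4
        exact hp2 ⟨⟨h3, h4⟩, hp1.2⟩
      simp only [indicator_of_notMem hm, smul_zero]
  have hcs : Measurable (fun p : ℝ × ℝ => Complex.polarCoord.symm p) := by
    have : (fun p : ℝ × ℝ => Complex.polarCoord.symm p)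
        = fun p => (p.1 : ℂ) * (Real.cos p.2 + Real.sin p.2 * I) := funext hsymm
    rw [this]
    fun_prop
  have hint : IntegrableOn (fun p : ℝ × ℝ => p.1 • f (Complex.polarCoord.symm p)) S := by
    have hfin : volume S < ⊤ := by
      rw [hS, Measure.volume_eq_prod, Measure.prod_prod]
      exact ENNReal.mul_lt_top measure_Ioo_lt_top measure_Ioo_lt_top
    refine IntegrableOn.of_bound hfin ?_ (Real.exp l2 * C) ?_
    · exact (measurable_fst.smul (hfm.comp hcs)).aestronglyMeasurable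
    · refine (ae_restrict_iff' hSm).2 (Filter.Eventually.of_forall ?_)
      rintro p ⟨hp1, hp2⟩
      have hpos : 0 < p.1 := lt_trans (Real.exp_pos _) hp1.1
      have hm : Complex.polarCoord.symm p ∈ ann l1 l2 := by
        refine ⟨?_, ?_⟩ <;> rw [hnorm, abs_of_pos hpos]
        · exact hp1.1
        · exact hp1.2
      rw [smul_eq_mul, norm_mul, Real.norm_eq_abs, Real.norm_eq_abs, abs_of_pos hpos]
      exact mul_le_mul hp1.2.le (hC _ hm) (abs_nonneg _) (Real.exp_pos _).le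
  have h3 : ∫ p in S, p.1 • f (Complex.polarCoord.symm p)
      = ∫ r in Ioo (Real.exp l1) (Real.exp l2), ∫ θ in Ioo (-π) π,
          r • f (Complex.polarCoord.symm (r, θ)) := by
    rw [hS] at hint ⊢
    rw [Measure.volume_eq_prod] at hint ⊢
    exact setIntegral_prod _ hint
  -- r = e^l
  have himg : Real.exp '' Ioo l1 l2 = Ioo (Real.exp l1) (Real.exp l2) := by
    ext r
    constructor
    · rintro ⟨l, hl1, rfl⟩
      exact ⟨Real.exp_lt_exp.2 hl1.1, Real.exp_lt_exp.2 hl1.2⟩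
    · rintro ⟨h4, h5⟩
      have hr : 0 < r := lt_trans (Real.exp_pos _) h4
      refine ⟨Real.log r, ⟨?_, ?_⟩, Real.exp_log hr⟩
      · rwa [Real.lt_log_iff_exp_lt hr]
      · rwa [Real.log_lt_iff_lt_exp hr]
  have h4 : ∫ r in Ioo (Real.exp l1) (Real.exp l2), ∫ θ in Ioo (-π) π,
          r • f (Complex.polarCoord.symm (r, θ))
      = ∫ l in Ioo l1 l2, Real.exp l • ∫ θ in Ioo (-π) π,
          Real.exp l • f (Complex.polarCoord.symm (Real.exp l, θ)) := by
    rw [← himg, integral_image_eq_integral_abs_deriv_smul measurableSet_Ioo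
      (fun x _ => (Real.hasDerivAt_exp x).hasDerivWithinAt) Real.exp_injective.injOn]
    simp only [abs_of_pos (Real.exp_pos _)]
  rw [h1, h2, h3, h4, intervalIntegral.integral_of_le hl, ← integral_Ioc_eq_integral_Ioo]
  refine setIntegral_congr_fun measurableSet_Ioc ?_
  intro l _
  simp only
  rw [← integral_Ioc_eq_integral_Ioo, ← intervalIntegral.integral_of_le (by linarith [Real.pi_pos]),
    smul_eq_mul, ← intervalIntegral.integral_const_mul]
  have hper : Function.Periodic (fun φ => Real.exp (2 * l) * f (pt l φ)) (2 * π) := by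
    intro φ
    simp only [pt_periodic l φ]
  have h5 := hper.intervalIntegral_add_eq (-π) 0
  rw [zero_add] at h5
  have h6 : -π + 2 * π = π := by ring
  rw [h6] at h5
  rw [← h5]
  refine intervalIntegral.integral_congr ?_
  intro φ _
  simp only [smul_eq_mul]
  rw [hsymm, pt_eq, two_mul, Real.exp_add]
  ring

/-- the norm of a real linear functional on `ℂ` -/
theorem norm_sq_functional (L : ℂ →L[ℝ] ℝ) : ‖L‖ ^ 2 = (L 1) ^ 2 + (L I) ^ 2 := by
  have hL : ∀ x : ℂ, L x = x.re * L 1 + x.im * L I := by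
    intro x
    have h : x = (x.re : ℝ) • (1 : ℂ) + (x.im : ℝ) • I := by
      apply Complex.ext <;> simp
    conv_lhs => rw [h]
    rw [map_add, map_smul, map_smul, smul_eq_mul, smul_eq_mul]
  set A := L 1
  set B := L I
  have hle : ‖L‖ ≤ Real.sqrt (A ^ 2 + B ^ 2) := by
    refine L.opNorm_le_bound (Real.sqrt_nonneg _) ?_
    intro x
    rw [hL x, Real.norm_eq_abs]
    refine abs_le_of_sq_le_sq ?_ (by positivity)
    rw [mul_pow, Real.sq_sqrt (by positivity), ← Complex.normSq_eq_norm_sq, Complex.normSq_apply]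
    nlinarith [sq_nonneg (x.re * B - x.im * A)]
  have hge : A ^ 2 + B ^ 2 ≤ ‖L‖ ^ 2 := by
    have h1 := L.le_opNorm (A + B * I)
    have h2 : L (A + B * I) = A ^ 2 + B ^ 2 := by
      rw [hL]
      simp
      ring
    have h3 : ‖(A + B * I : ℂ)‖ ^ 2 = A ^ 2 + B ^ 2 := by
      rw [← Complex.normSq_eq_norm_sq, Complex.normSq_apply]
      simp
      ring
    rw [h2, Real.norm_eq_abs, abs_of_nonneg (by positivity)] at h1
    rcases eq_or_lt_of_le (show 0 ≤ A ^ 2 + B ^ 2 by positivity) with h0 | h0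
    · rw [← h0]; positivity
    · have h4 : (A ^ 2 + B ^ 2) ^ 2 ≤ ‖L‖ ^ 2 * (A ^ 2 + B ^ 2) := by
        rw [← h3, ← mul_pow]
        rw [h3]
        exact pow_le_pow_left₀ h0.le h1 2
      nlinarith
  apply le_antisymm _ hge
  have := pow_le_pow_left₀ (norm_nonneg L) hle 2
  rwa [Real.sq_sqrt (by positivity)] at this

theorem norm_sq_functional_mul (L : ℂ →L[ℝ] ℝ) (z : ℂ) :
    ‖z‖ ^ 2 * ‖L‖ ^ 2 = (L z) ^ 2 + (L (I * z)) ^ 2 := by
  have hL : ∀ x : ℂ, L x = x.re * L 1 + x.im * L I := by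
    intro x
    have h : x = (x.re : ℝ) • (1 : ℂ) + (x.im : ℝ) • I := by
      apply Complex.ext <;> simp
    conv_lhs => rw [h]
    rw [map_add, map_smul, map_smul, smul_eq_mul, smul_eq_mul]
  rw [norm_sq_functional, hL z, hL (I * z), ← Complex.normSq_eq_norm_sq, Complex.normSq_apply]
  simp
  ring

/-- plane energy on an annulus in logarithmic polar coordinates (form with `fderiv`) -/
theorem energy_ann (u : ℂ → ℝ) (K : ℝ) {l1 l2 : ℝ} (hl : l1 ≤ l2)
    (hK : ∀ z ∈ ann l1 l2, ‖fderiv ℝ u z‖ ≤ K) :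
    ∫ z in ann l1 l2, ‖fderiv ℝ u z‖ ^ 2
      = ∫ l in l1..l2, ∫ φ in (0 : ℝ)..(2 * π),
          ((fderiv ℝ u (pt l φ) (pt l φ)) ^ 2 + (fderiv ℝ u (pt l φ) (I * pt l φ)) ^ 2) := by
  have hm : Measurable (fun z => ‖fderiv ℝ u z‖ ^ 2) :=
    (measurable_fderiv ℝ u).norm.pow_const 2
  rw [setIntegral_ann _ hm (K ^ 2) hl ?_]
  · refine intervalIntegral.integral_congr ?_
    intro l _
    refine intervalIntegral.integral_congr ?_
    intro φ _
    simp only
    rw [← norm_sq_functional_mul, norm_pt, ← Real.exp_nat_mul]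
    norm_num
  · intro z hz
    rw [abs_of_nonneg (by positivity)]
    exact pow_le_pow_left₀ (norm_nonneg _) (hK z hz) 2

/-- derivative along a slice -/
theorem hasDerivAt_slice_l {u : ℂ → ℝ} {l φ : ℝ} (h : DifferentiableAt ℝ u (pt l φ)) :
    HasDerivAt (fun l => u (pt l φ)) (fderiv ℝ u (pt l φ) (pt l φ)) l := by
  have h1 : HasDerivAt (fun l : ℝ => pt l φ) (pt l φ) l := by
    unfold pt
    have h2 : HasDerivAt (fun l : ℝ => (l : ℂ) + φ * I) 1 l := by
      have := (Complex.ofRealCLM.hasDerivAt (x := l)).add_const (φ * I : ℂ)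
      simpa using this
    have := h2.cexp
    simpa using this
  exact h.hasFDerivAt.comp_hasDerivAt l h1

theorem hasDerivAt_slice_phi {u : ℂ → ℝ} {l φ : ℝ} (h : DifferentiableAt ℝ u (pt l φ)) :
    HasDerivAt (fun φ => u (pt l φ)) (fderiv ℝ u (pt l φ) (I * pt l φ)) φ := by
  have h1 : HasDerivAt (fun φ : ℝ => pt l φ) (I * pt l φ) φ := by
    unfold pt
    have h2 : HasDerivAt (fun φ : ℝ => (l : ℂ) + φ * I) I φ := by
      have := ((Complex.ofRealCLM.hasDerivAt (x := φ)).mul_const I).const_add (l : ℂ)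
      simpa using this
    have := h2.cexp
    rw [mul_comm] at this
    exact this
  exact h.hasFDerivAt.comp_hasDerivAt φ h1

theorem pt_add (l x : ℝ) : pt l x ≠ 0 := by
  unfold pt
  exact Complex.exp_ne_zero _

/-- plane energy with slice derivatives: `w l φ = u (pt l φ)`, derivatives `wl`, `wφ` known at all points where `u` is
differentiable on the annulus -/
theorem energy_ann_slices (u : ℂ → ℝ) (K : ℝ) {l1 l2 : ℝ} (hl : l1 ≤ l2)
    (hK : ∀ z ∈ ann l1 l2, ‖fderiv ℝ u z‖ ≤ K) (hd : ∀ z ∈ ann l1 l2, DifferentiableAt ℝ u z)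
    (wl wφ : ℝ → ℝ → ℝ)
    (h1 : ∀ l ∈ Ioo l1 l2, ∀ φ, HasDerivAt (fun l => u (pt l φ)) (wl l φ) l)
    (h2 : ∀ l ∈ Ioo l1 l2, ∀ φ, HasDerivAt (fun φ => u (pt l φ)) (wφ l φ) φ) :
    ∫ z in ann l1 l2, ‖fderiv ℝ u z‖ ^ 2
      = ∫ l in l1..l2, ∫ φ in (0 : ℝ)..(2 * π), ((wl l φ) ^ 2 + (wφ l φ) ^ 2) := by
  rw [energy_ann u K hl hK, intervalIntegral.integral_of_le hl, intervalIntegral.integral_of_le hl,
    integral_Ioc_eq_integral_Ioo, integral_Ioc_eq_integral_Ioo]
  refine setIntegral_congr_fun measurableSet_Ioo ?_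
  intro l hl'
  refine intervalIntegral.integral_congr ?_
  intro φ _
  have hdd := hd _ (pt_mem_ann hl'.1 hl'.2 φ)
  simp only
  rw [(hasDerivAt_slice_l hdd).unique (h1 l hl' φ), (hasDerivAt_slice_phi hdd).unique (h2 l hl' φ)]

/-- energy in a small disc -/
theorem energy_small_disc (u : ℂ → ℝ) (K : ℝ) {l1 : ℝ}
    (hK : ∀ z, ‖z‖ < Real.exp l1 → ‖fderiv ℝ u z‖ ≤ K) :
    ∫ z in Metric.ball (0 : ℂ) (Real.exp l1), ‖fderiv ℝ u z‖ ^ 2
      ≤ K ^ 2 * (π * Real.exp (2 * l1)) := by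
  have hfin : volume (Metric.ball (0 : ℂ) (Real.exp l1)) < ⊤ := measure_ball_lt_top
  have h1 := norm_setIntegral_le_of_norm_le_const (μ := volume) (f := fun z => ‖fderiv ℝ u z‖ ^ 2)
    (C := K ^ 2) hfin (fun z hz => by
      rw [Real.norm_eq_abs, abs_of_nonneg (by positivity)]
      exact pow_le_pow_left₀ (norm_nonneg _) (hK z (by simpa using hz)) 2)
  have h2 : volume.real (Metric.ball (0 : ℂ) (Real.exp l1)) = π * Real.exp (2 * l1) := by
    rw [Measure.real, Complex.volume_ball]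
    rw [ENNReal.toReal_mul, ENNReal.toReal_pow, ENNReal.toReal_ofReal (Real.exp_pos _).le,
      ← Real.exp_nat_mul]
    simp
    ring
  rw [h2] at h1
  exact le_trans (le_abs_self _) h1

/-- the disc of radius `e^l2` = small disc + circle + annulus -/
theorem energy_disc_eq (u : ℂ → ℝ) (K : ℝ) {l1 l2 : ℝ} (hl : l1 ≤ l2)
    (hK : ∀ z, ‖z‖ < Real.exp l2 → ‖fderiv ℝ u z‖ ≤ K) :
    ∫ z in Metric.ball (0 : ℂ) (Real.exp l2), ‖fderiv ℝ u z‖ ^ 2
      = (∫ z in Metric.ball (0 : ℂ) (Real.exp l1), ‖fderiv ℝ u z‖ ^ 2)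
        + ∫ z in ann l1 l2, ‖fderiv ℝ u z‖ ^ 2 := by
  have hm : Measurable (fun z => ‖fderiv ℝ u z‖ ^ 2) :=
    (measurable_fderiv ℝ u).norm.pow_const 2
  have hle : Real.exp l1 ≤ Real.exp l2 := Real.exp_le_exp.2 hl
  have hint : ∀ S : Set ℂ, MeasurableSet S → S ⊆ Metric.ball (0 : ℂ) (Real.exp l2) →
      IntegrableOn (fun z => ‖fderiv ℝ u z‖ ^ 2) S := by
    intro S hSm hS
    refine IntegrableOn.of_bound (lt_of_le_of_lt (measure_mono hS) measure_ball_lt_top)
      hm.aestronglyMeasurable (K ^ 2) ?_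
    refine (ae_restrict_iff' hSm).2 (Filter.Eventually.of_forall ?_)
    intro z hz
    rw [Real.norm_eq_abs, abs_of_nonneg (by positivity)]
    exact pow_le_pow_left₀ (norm_nonneg _) (hK z (by simpa using hS hz)) 2
  have hU : Metric.ball (0 : ℂ) (Real.exp l2)
      = (Metric.ball (0 : ℂ) (Real.exp l1) ∪ (Metric.sphere (0 : ℂ) (Real.exp l1) ∩
          Metric.ball (0 : ℂ) (Real.exp l2))) ∪ ann l1 l2 := by
    ext z
    simp only [Metric.mem_ball, dist_zero_right, mem_union, Metric.mem_sphere, mem_inter_iff, ann,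
      Set.mem_ofPred_eq]
    constructor
    · intro h
      rcases lt_trichotomy ‖z‖ (Real.exp l1) with h1 | h1 | h1
      · exact Or.inl (Or.inl h1)
      · exact Or.inl (Or.inr ⟨h1, h⟩)
      · exact Or.inr ⟨h1, h⟩
    · rintro ((h | h) | h)
      · exact lt_of_lt_of_le h hle
      · exact h.2
      · exact h.2
  have hs0 : volume (Metric.sphere (0 : ℂ) (Real.exp l1) ∩
          Metric.ball (0 : ℂ) (Real.exp l2)) = 0 :=
    measure_mono_null inter_subset_left
      (Measure.addHaar_sphere_of_ne_zero volume 0 (Real.exp_pos _).ne')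
  have hannm : MeasurableSet (ann l1 l2) := (isOpen_ann l1 l2).measurableSet
  have hb1 : Metric.ball (0 : ℂ) (Real.exp l1) ⊆ Metric.ball (0 : ℂ) (Real.exp l2) :=
    Metric.ball_subset_ball hle
  have hann : ann l1 l2 ⊆ Metric.ball (0 : ℂ) (Real.exp l2) := by
    intro z hz
    simpa using hz.2
  have hsm : MeasurableSet (Metric.sphere (0 : ℂ) (Real.exp l1) ∩
          Metric.ball (0 : ℂ) (Real.exp l2)) :=
    Metric.isClosed_sphere.measurableSet.inter Metric.isOpen_ball.measurableSet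
  have hdis : Disjoint (Metric.ball (0 : ℂ) (Real.exp l1) ∪ (Metric.sphere (0 : ℂ) (Real.exp l1) ∩
          Metric.ball (0 : ℂ) (Real.exp l2))) (ann l1 l2) := by
    rw [Set.disjoint_left]
    rintro z (hz | hz) hz'
    · have h3 : ‖z‖ < Real.exp l1 := by simpa using hz
      exact lt_asymm h3 hz'.1
    · have h3 : ‖z‖ = Real.exp l1 := by simpa using hz.1
      exact (ne_of_gt hz'.1) h3
  rw [hU, setIntegral_union hdis hannm
    (hint _ (Metric.isOpen_ball.measurableSet.union hsm)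
      (union_subset hb1 inter_subset_right)) (hint _ hannm hann)]
  have h3 : ∫ z in (Metric.ball (0 : ℂ) (Real.exp l1) ∪ (Metric.sphere (0 : ℂ) (Real.exp l1) ∩
          Metric.ball (0 : ℂ) (Real.exp l2))), ‖fderiv ℝ u z‖ ^ 2
        = ∫ z in Metric.ball (0 : ℂ) (Real.exp l1), ‖fderiv ℝ u z‖ ^ 2 :=
    setIntegral_congr_set (union_ae_eq_left_of_ae_eq_empty (ae_eq_empty.2 hs0))
  rw [h3]

/-- the disc of radius `e^l2`, upper bound -/
theorem energy_disc (u : ℂ → ℝ) (K : ℝ) {l1 l2 : ℝ} (hl : l1 ≤ l2)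
    (hK : ∀ z, ‖z‖ < Real.exp l2 → ‖fderiv ℝ u z‖ ≤ K) :
    ∫ z in Metric.ball (0 : ℂ) (Real.exp l2), ‖fderiv ℝ u z‖ ^ 2
      ≤ K ^ 2 * (π * Real.exp (2 * l1)) + ∫ z in ann l1 l2, ‖fderiv ℝ u z‖ ^ 2 := by
  have hle : Real.exp l1 ≤ Real.exp l2 := Real.exp_le_exp.2 hl
  rw [energy_disc_eq u K hl hK]
  have h4 := energy_small_disc u K (l1 := l1) (fun z hz => hK z (lt_of_lt_of_le hz hle))
  linarith

end Pool.Agent.H7.EH
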